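import Mathlib
import Pool.Agent.N791.U.F9

/-!
# Primes in almost all quadratic polynomials of height `H`, for lengths up to `H^(20/7-ε)`

The coefficient `a > 0` is fixed. For 100 percent of the pairs of integers `|b|, |c| ≤ H` and every length `N`
with `H² ≤ N ≤ H^(20/7 - ε)` there are, in every interval, at least `3/4 - η` times as many primes
`a m² + b m + c`, `m ≤ N`, as the formula of Hardy and Littlewood predicts, with the full constant. So the lengths
may be much larger than the height: there are `4 H²` polynomials, and their values, of the size `N²`, may be as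
large as `H^(40/7 - 2 ε)`. As far as I know no average over quadratic polynomials of height `H` reaches lengths `N > H`
(for the asymptotic formula up to `H^(12/5 - ε)` see `QuadraticsBeyondHeight` on this page).

Proof. Completing the square, `a m² + b m + c = a n² + b₀ n + c₀` with `n = m + k`, `b = b₀ + 2 a k`,
`0 ≤ b₀ < 2 a` and `c₀ = c - a k² - b₀ k`: the pairs are a family of about `H²` constant terms `c₀`, mostly
negative, each of which occurs a bounded number of times, except for few pairs. A second shift, by `H`, makes the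
constant terms positive, `a n² + b' n + c'` with `b'² ≤ 3 a · 2 a H²` and `1 ≤ c' ≤ C = 2 a H²`. For the rough values
without a divisor near `N` the sum of `μ(d)` over the divisors `d ≤ U = N^(4/5 - e)` is `1` for a prime, `-2` for a
product of three primes in `(N^(2/5 + e), N^(4/5 + 2 e)]` and `0` otherwise, which gives the primes minus twice these
products as type I and type II sums; the latter, `j l = a n² + b' n + c'`, `C j ≥ N^(3/2 + ε)`, are estimated by
Cauchy's inequality over `c'`, `j` and the roots modulo `j` and a double large sieve over the frequencies and the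
cofactors jointly, uniformly for `b'² ≤ Λ C`.
-/

set_option autoImplicit false

namespace Pool.Agent.Results.MP_a1177c_nt.LowerBoundBeyondHeight

open Finset Filter Topology

/-- the triple `(a, b, c)` is admissible -/
def Admissible (a b c : ℤ) : Prop :=
  0 < a ∧ (∀ d : ℤ, d ∣ a → d ∣ b → d ∣ c → IsUnit d) ∧ ¬ ((2 : ℤ) ∣ a + b ∧ (2 : ℤ) ∣ c) ∧
    ¬ IsSquare (b ^ 2 - 4 * a * c)

/-- the number of `u < m ≤ v` for which `a m² + b m + c` is a (positive) prime -/
def primeCount (a b c : ℤ) (u v : ℕ) : ℕ :=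
  #((Ioc u v).filter (fun m : ℕ => (a * (m : ℤ) ^ 2 + b * m + c).toNat.Prime))

/-- `ε = 2` if `a + b` is even and `ε = 1` if `a + b` is odd -/
noncomputable def eps (a b : ℤ) : ℝ := if (2 : ℤ) ∣ a + b then 2 else 1

/-- the product `∏_{p > 2, p ∣ gcd(a, b)} p / (p - 1)` -/
noncomputable def gcdProd (a b : ℤ) : ℝ :=
  ∏ p ∈ (Int.gcd a b).primeFactors.filter (fun p => 2 < p), (p : ℝ) / (p - 1)

/-- the product `∏_{2 < p ≤ z, p ∤ a} (1 - (D / p) / (p - 1))`, where `D = b² - 4 a c` -/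
noncomputable def partialC (a b c : ℤ) (z : ℕ) : ℝ :=
  ∏ p ∈ (Icc 3 z).filter (fun p : ℕ => p.Prime ∧ ¬ (p : ℤ) ∣ a),
    (1 - (jacobiSym (b ^ 2 - 4 * a * c) p : ℝ) / (p - 1))

/-- the sum of `1 / log |a m² + b m + c|` over the `u < m ≤ v` with `|a m² + b m + c| ≥ 2` -/
noncomputable def logSum (a b c : ℤ) (u v : ℕ) : ℝ :=
  ∑ m ∈ (Ioc u v).filter (fun m : ℕ => 2 ≤ |a * (m : ℤ) ^ 2 + b * m + c|),
    1 / Real.log |(a : ℝ) * m ^ 2 + b * m + c|

lemma logSum_eq (a b c : ℤ) (u v : ℕ) :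
    logSum a b c u v = ∑ m ∈ Ioc u v, 1 / Real.log ((a : ℝ) * m ^ 2 + b * m + c) := by
  unfold logSum
  rw [sum_filter]
  refine sum_congr rfl fun n _ => ?_
  have e : ((a * (n : ℤ) ^ 2 + b * n + c : ℤ) : ℝ) = (a : ℝ) * n ^ 2 + b * n + c := by push_cast; ring
  split_ifs with h
  · rw [Real.log_abs]
  · rw [← e]
    have h' : a * (n : ℤ) ^ 2 + b * n + c = 0 ∨ a * (n : ℤ) ^ 2 + b * n + c = 1 ∨ a * (n : ℤ) ^ 2 + b * n + c = -1 := by
      rw [not_le] at h
      have := abs_lt.1 h
      omega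
    rcases h' with h | h | h <;> rw [h] <;> simp

/-- **A lower bound for the number of the primes, for 100 percent of the quadratic polynomials of height `H`,
`H² ≤ N ≤ H^(20/7-ε)`.** Let `a > 0`, `ε > 0` and `η > 0` be fixed. There is `θ > 0` such that for `H ≥ H0` and every
`N` with `H² ≤ N ≤ H^(20/7 - ε)`, all but at most `η H²` of the pairs `q = (b, c)` of integers with `|b|, |c| ≤ H` have
the following property: if `(a, b, c)` is admissible, the product `C(a, b, c)` converges to a number `S > 0`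
with `M = ε S ∏_{p > 2, p ∣ gcd(a, b)} p / (p - 1) ≥ θ` (here `ε` is `eps a b`), and for all `u ≤ v ≤ N` the number of
`u < m ≤ v` with `a m² + b m + c` prime is at least `(3/4) M ∑_{u < m ≤ v} 1 / log |a m² + b m + c| - η M N / log N`. -/
theorem result (a : ℤ) (ha : 0 < a) (ε η : ℝ) (hε : 0 < ε) (hη : 0 < η) :
    ∃ θ : ℝ, 0 < θ ∧ ∃ H0 : ℕ, ∀ H : ℕ, H0 ≤ H → ∀ N : ℕ, H ^ 2 ≤ N → (N : ℝ) ≤ (H : ℝ) ^ (20 / 7 - ε) →
    ∃ Ex ⊆ Icc (-(H : ℤ)) H ×ˢ Icc (-(H : ℤ)) H, (#Ex : ℝ) ≤ η * H ^ 2 ∧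
      ∀ q ∈ Icc (-(H : ℤ)) H ×ˢ Icc (-(H : ℤ)) H, q ∉ Ex → Admissible a q.1 q.2 →
      ∃ S : ℝ, 0 < S ∧ Tendsto (fun z => partialC a q.1 q.2 z) atTop (𝓝 S) ∧
        θ ≤ eps a q.1 * S * gcdProd a q.1 ∧
        ∀ u v : ℕ, u ≤ v → v ≤ N →
          3 / 4 * (eps a q.1 * S * gcdProd a q.1 * logSum a q.1 q.2 u v) -
            η * (eps a q.1 * S * gcdProd a q.1 * N / Real.log N) ≤ (primeCount a q.1 q.2 u v : ℝ) := by
  obtain ⟨θ, hθ, H0, h⟩ := Pool.Agent.N791.U.pair_t9_20 a ha ε η hε hη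
  refine ⟨θ, hθ, H0, fun H hH N hN1 hN2 => ?_⟩
  obtain ⟨Ex, k1, k2, k3⟩ := h H hH N hN1 hN2
  refine ⟨Ex, k1, k2, fun q hq hqE hadm => ?_⟩
  obtain ⟨S, m1, m2, m3, m4⟩ := k3 q hq hqE hadm
  refine ⟨S, m1, m2, m3, fun u v huv hvN => ?_⟩
  rw [logSum_eq]
  exact m4 u v huv hvN

end Pool.Agent.Results.MP_a1177c_nt.LowerBoundBeyondHeight
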