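import Pool.Agent.N718.HLQ4

set_option autoImplicit false

/-!
# The Hardy-Littlewood asymptotic formula for almost all quadratic polynomials of height at most `H`

For every `ε > 0` and all `U`, `V` there is `B` such that for all but a proportion `(log H) ^ (-U)` of ALL the quadratic
polynomials `a m² + b m + c` with `1 ≤ a ≤ H`, `|b|, |c| ≤ H` for which the triple `(a, b, c)` is admissible, the
product `C(a, b, c)` converges to a positive number and the formula of Hardy and Littlewood holds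

* for `π_f(x)` and all `H ^ (1 + ε) ≤ x ≤ H ^ 3 / (log H) ^ B`, with a relative error of at most `30 / log H`;
* for the number of `m ≤ y` with `f(m)` prime and all `H ^ ε ≤ y ≤ H / (log H) ^ B`, with the main term
  `ε C(a, b, c) ∏ p / (p - 1) ∑ 1 / log f(m)` and a relative error of at most `(log H) ^ (-V)`.

Proof (library `H300R2`, `TH892`): second moment over the box of the primes minus their sieve model (inverse theorem for
Weyl sums on the minor arcs, van der Corput's method and the theorem of Siegel and Walfisz on the major arcs), which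
gives the formula with the product over the primes `p ≤ (log H) ^ E`; comparison of the products for almost all triples
by means of second moments over the discriminants, a large sieve over their kernels and the theorem of Siegel and
Walfisz. Here: both are combined, and the formula is transferred to `π_f(x)`.
-/

namespace Pool.Agent.Results.MP_a1177c_nt.QuadraticsOfHeight

open Finset Filter Topology

/-- The polynomial `f(m) = a m² + b m + c`. -/
def f (a b c : ℤ) (m : ℕ) : ℤ := a * (m : ℤ) ^ 2 + b * m + c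

/-- The triple `(a, b, c)` is admissible: `a > 0`, `gcd(a, b, c) = 1`, `a + b` and `c` are not both even, and
`b² - 4 a c` is not a perfect square. -/
def Admissible (a b c : ℤ) : Prop :=
  0 < a ∧ (∀ d : ℤ, d ∣ a → d ∣ b → d ∣ c → IsUnit d) ∧ ¬ ((2 : ℤ) ∣ a + b ∧ (2 : ℤ) ∣ c) ∧
    ¬ IsSquare (b ^ 2 - 4 * a * c)

/-- `π_f(x)`: the number of the integers `m ≥ 1` with `f(m)` prime and `f(m) < x`. -/
noncomputable def primeCount (a b c : ℤ) (x : ℝ) : ℕ :=
  {m : ℕ | 1 ≤ m ∧ (f a b c m).toNat.Prime ∧ ((f a b c m : ℤ) : ℝ) < x}.ncard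

/-- The number of the integers `1 ≤ m ≤ y` with `f(m)` prime. -/
noncomputable def argCount (a b c : ℤ) (y : ℕ) : ℕ := #((Icc 1 y).filter (fun m : ℕ => (f a b c m).toNat.Prime))

/-- The sum of `1 / log f(m)` over the integers `1 ≤ m ≤ y` with `f(m) ≥ 2`. -/
noncomputable def logSum (a b c : ℤ) (y : ℕ) : ℝ :=
  ∑ m ∈ (Icc 1 y).filter (fun m : ℕ => 2 ≤ f a b c m), 1 / Real.log ((f a b c m : ℤ) : ℝ)

/-- `ε = 2` if `a + b` is even and `ε = 1` if `a + b` is odd. -/
noncomputable def eps (a b : ℤ) : ℝ := if (2 : ℤ) ∣ a + b then 2 else 1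

/-- The product `∏_{p > 2, p ∣ gcd(a, b)} p / (p - 1)`. -/
noncomputable def gcdProd (a b : ℤ) : ℝ :=
  ∏ p ∈ (Int.gcd a b).primeFactors.filter (fun p => 2 < p), (p : ℝ) / (p - 1)

/-- The product `∏_{2 < p ≤ z, p ∤ a} (1 - (D / p) / (p - 1))`, where `D = b² - 4 a c`. -/
noncomputable def partialC (a b c : ℤ) (z : ℕ) : ℝ :=
  ∏ p ∈ (Icc 3 z).filter (fun p : ℕ => p.Prime ∧ ¬ (p : ℤ) ∣ a),
    (1 - (jacobiSym (b ^ 2 - 4 * a * c) p : ℝ) / (p - 1))

/-- The triples `(a, b, c)` with `1 ≤ a ≤ H`, `|b| ≤ H` and `|c| ≤ H`. -/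
noncomputable def box (H : ℕ) : Finset (ℤ × ℤ × ℤ) := Icc (1 : ℤ) H ×ˢ Icc (-(H : ℤ)) H ×ˢ Icc (-(H : ℤ)) H

/-- The conclusion for one triple: the product `C(a, b, c)`, taken over the primes in increasing order, converges to
`S > 0`; for all `x` with `H ^ (1 + ε) ≤ x ≤ H ^ 3 / (log H) ^ B` the number `π_f(x)` differs from
`ε S / √a · √x / log x · ∏_{p > 2, p ∣ gcd(a, b)} p / (p - 1)` by at most its `(30 / log H)`-fold; and for all `y` with
`H ^ ε ≤ y ≤ H / (log H) ^ B` the number of the `m ≤ y` with `f(m)` prime differs from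
`ε S (∏_{p > 2, p ∣ gcd(a, b)} p / (p - 1)) ∑_{m ≤ y} 1 / log f(m)` by at most its `(log H) ^ (-V)`-fold. -/
def Good (ε : ℝ) (V B H : ℕ) (a b c : ℤ) : Prop :=
  ∃ S : ℝ, 0 < S ∧ Tendsto (partialC a b c) atTop (𝓝 S) ∧
    (∀ x : ℝ, (H : ℝ) ^ (1 + ε) ≤ x → x * Real.log H ^ B ≤ (H : ℝ) ^ 3 →
      |(primeCount a b c x : ℝ) - eps a b * S / Real.sqrt a * (Real.sqrt x / Real.log x) * gcdProd a b| ≤
        30 / Real.log H * (eps a b * S / Real.sqrt a * (Real.sqrt x / Real.log x) * gcdProd a b)) ∧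
    (∀ y : ℕ, (H : ℝ) ^ ε ≤ y → (y : ℝ) * Real.log H ^ B ≤ H →
      |(argCount a b c y : ℝ) - eps a b * S * gcdProd a b * logSum a b c y| ≤
        eps a b * S * gcdProd a b * logSum a b c y / Real.log H ^ V)

lemma eps_pos (a b : ℤ) : 0 < eps a b := by
  unfold eps; split_ifs <;> norm_num

lemma gcdProd_pos (a b : ℤ) : 0 < gcdProd a b := by
  unfold gcdProd
  apply prod_pos
  intro p hp
  rw [mem_filter] at hp
  have h : (2:ℝ) < p := by exact_mod_cast hp.2
  apply div_pos <;> linarith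

/-- relation with the constant `CF` of the library -/
lemma CF_eq (a b c : ℤ) (ha : 0 < a) (z : ℕ) (hz : Int.gcd a b ≤ z) :
    2 * Pool.Agent.W468.ConjF.CF a b c z = eps a b * gcdProd a b * partialC a b c z := by
  have hg0 : Int.gcd a b ≠ 0 := by
    intro h
    rw [Int.gcd_eq_zero_iff] at h
    omega
  have e1 : (range (z + 1)).filter (fun p : ℕ => p.Prime ∧ 3 ≤ p ∧ (p : ℤ) ∣ a ∧ (p : ℤ) ∣ b) =
      (Int.gcd a b).primeFactors.filter (fun p => 2 < p) := by
    ext p
    rw [mem_filter, mem_filter, mem_range, Nat.mem_primeFactors]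
    constructor
    · rintro ⟨h1, h2, h3, h4, h5⟩
      refine ⟨⟨h2, ?_, hg0⟩, by omega⟩
      have := Int.dvd_coe_gcd h4 h5
      exact_mod_cast this
    · rintro ⟨⟨h1, h2, h3⟩, h4⟩
      have h5 : p ≤ Int.gcd a b := Nat.le_of_dvd (Nat.pos_of_ne_zero hg0) h2
      have h6 : (p : ℤ) ∣ (Int.gcd a b : ℤ) := by exact_mod_cast h2
      exact ⟨by omega, h1, by omega, h6.trans (Int.gcd_dvd_left ..), h6.trans (Int.gcd_dvd_right ..)⟩
  have e2 : (range (z + 1)).filter (fun p : ℕ => p.Prime ∧ 3 ≤ p ∧ ¬ (p : ℤ) ∣ a) =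
      (Icc 3 z).filter (fun p : ℕ => p.Prime ∧ ¬ (p : ℤ) ∣ a) := by
    ext p
    rw [mem_filter, mem_filter, mem_range, mem_Icc]
    constructor
    · rintro ⟨h1, h2, h3, h4⟩; exact ⟨⟨h3, by omega⟩, h2, h4⟩
    · rintro ⟨⟨h1, h2⟩, h3, h4⟩; exact ⟨by omega, h3, h1, h4⟩
  unfold Pool.Agent.W468.ConjF.CF gcdProd partialC eps
  rw [e1, e2]
  split_ifs <;> ring

open Classical in
/-- The number of the admissible triples in the box for which the conclusion fails is at most a `(log H) ^ (-U)`-fold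
of the number of all triples in the box. -/
theorem result (ε : ℝ) (hε : 0 < ε) (U V : ℕ) : ∃ B H₀ : ℕ, ∀ H : ℕ, H₀ ≤ H →
    (#((box H).filter (fun t => Admissible t.1 t.2.1 t.2.2 ∧ ¬ Good ε V B H t.1 t.2.1 t.2.2)) : ℝ) ≤
      #(box H) / Real.log H ^ U := by
  obtain ⟨B, H₀, h⟩ := Pool.Agent.N718.HLQ.quad_val ε hε U V
  refine ⟨B, H₀, fun H hH => ?_⟩
  obtain ⟨X, -, hXc, hX⟩ := h H hH
  refine le_trans ?_ hXc
  have hsub : (box H).filter (fun t => Admissible t.1 t.2.1 t.2.2 ∧ ¬ Good ε V B H t.1 t.2.1 t.2.2) ⊆ X := by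
    intro t ht
    rw [mem_filter] at ht
    obtain ⟨htb, hadm, hng⟩ := ht
    by_contra htX
    apply hng
    obtain ⟨K, hK0, hKlim, h1, h2⟩ := hX t htb htX hadm
    have he := eps_pos t.1 t.2.1
    have hg := gcdProd_pos t.1 t.2.1
    set S : ℝ := 2 * K / (eps t.1 t.2.1 * gcdProd t.1 t.2.1) with hS
    have hS2 : 2 * K = eps t.1 t.2.1 * S * gcdProd t.1 t.2.1 := by
      rw [hS]; field_simp
    refine ⟨S, by positivity, ?_, ?_, ?_⟩
    · have h3 : Tendsto (fun z => 2 * Pool.Agent.W468.ConjF.CF t.1 t.2.1 t.2.2 z / (eps t.1 t.2.1 * gcdProd t.1 t.2.1))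
          atTop (𝓝 S) := (hKlim.const_mul 2).div_const _
      refine h3.congr' ?_
      filter_upwards [eventually_ge_atTop (Int.gcd t.1 t.2.1)] with z hz
      rw [CF_eq _ _ _ hadm.1 z hz]
      field_simp
    · intro x hx hxB
      have h3 := h1 x hx hxB
      have e1 : eps t.1 t.2.1 * S / Real.sqrt t.1 * (Real.sqrt x / Real.log x) * gcdProd t.1 t.2.1 =
          2 * K * (Real.sqrt x / Real.sqrt t.1 / Real.log x) := by
        rw [hS2]; ring
      rw [e1]
      exact h3
    · intro y hy hyB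
      have h3 := h2 y hy hyB
      have e1 : (argCount t.1 t.2.1 t.2.2 y : ℝ) =
          Pool.Agent.H300R2.BH.pv (Pool.Agent.TH892.pol (Pool.Agent.N718.HLQ.vec t)) y := by
        unfold argCount Pool.Agent.H300R2.BH.pv
        simp only [Pool.Agent.N718.HLQ.eval_vec]
        rfl
      have e2 : logSum t.1 t.2.1 t.2.2 y =
          Pool.Agent.H300R2.BH.lF (Pool.Agent.TH892.pol (Pool.Agent.N718.HLQ.vec t)) y := by
        unfold logSum Pool.Agent.H300R2.BH.lF
        simp only [Pool.Agent.N718.HLQ.eval_vec]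
        rfl
      rw [e1, e2, ← hS2]
      exact h3
  exact_mod_cast card_le_card hsub

end Pool.Agent.Results.MP_a1177c_nt.QuadraticsOfHeight
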