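import Mathlib
import Pool.Agent.N792.T7S

/-!
# The Hardy-Littlewood formula for almost all constant terms `c ≤ C`, `x^(5/6+ε) ≤ C ≤ x`

The coefficients `a > 0` and `b` are fixed. For almost all `c ≤ C` the number of prime values of
`a m² + b m + c`, `m ≤ x`, is given by the Hardy-Littlewood formula with the full constant, for every
`C` with `x^(5/6 + ε) ≤ C ≤ x`, and in fact for `m` in every interval `(u, v]` with `v ≤ x`, with an
error `η M x / log x`. Here the values `a m² + b m + c`, `m ≤ x`, `c ≤ C`, form a sparse set of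
integers, of at most `x C ≤ x²` elements below `a x² + |b| x + x`, with `C` smaller than the spacing
`2 a m` of the values `a m² + b m`; the method of the circle needs `C ≥ x^(1 + ε)` also under the
generalized Riemann hypothesis.

Proof. The values are first sifted by the primes up to `x^η1`, and Vaughan's identity is applied to the
rough values with `U` just below `x^(2/3)`. The terms with a divisor near `x` (of which one of the two
cofactors lies between `x^(1 - ε)` and `x^(1 + ε)`) are bounded by the sieve, on average over `c`. For the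
bilinear sums `j k = a n² + b n + c` with `U < j < x^(1 - ε)`, Cauchy's inequality is applied to the sum
over the triples of `c`, `j` and a root modulo `j`, `n` and `n' = n + j e` being in the same class. For
given `k`, `k' = (a n'² + b n' + c) / j` and `e` the number `j` is the integer nearest to
`(√k' - √k)² / (a e²)`, up to `O(C / k)`, and the resulting sum over `k ≡ k' (mod e)` with the phases
`h √(k k') / (a e²)` is estimated by a double large sieve over the pairs `(h, k)` in given classes modulo
`e` and `4 a e` jointly; it saves a power of `x` if `C j ≥ x^(3/2 + ε)`, and this needs the number of the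
solutions of `|h² k - h₁² k₁| ≤ 2 a H e²` with congruences. The frequency `h = 0` is treated with the
theorem of Siegel and Walfisz and the large sieve for the classes modulo `e`. The mean values of the
numbers of roots are treated by Gauss sums and fourth moments, and the products cut at a power of the
logarithm are compared with the infinite products for almost all `c`.
-/

set_option autoImplicit false

namespace Pool.Agent.Results.MP_a1177c_nt.ThinConstantTerms

open Finset Filter Topology

/-- the triple `(a, b, c)` is admissible -/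
def Admissible (a b c : ℤ) : Prop :=
  0 < a ∧ (∀ d : ℤ, d ∣ a → d ∣ b → d ∣ c → IsUnit d) ∧ ¬ ((2 : ℤ) ∣ a + b ∧ (2 : ℤ) ∣ c) ∧
    ¬ IsSquare (b ^ 2 - 4 * a * c)

/-- the number of `u < m ≤ v` for which `a m² + b m + c` is a (positive) prime -/
def primeCount (a b c : ℤ) (u v : ℕ) : ℕ :=
  #((Ioc u v).filter (fun m : ℕ => (a * (m : ℤ) ^ 2 + b * m + c).toNat.Prime))

/-- `ε = 2` if `a + b` is even and `ε = 1` if `a + b` is odd -/
noncomputable def eps (a b : ℤ) : ℝ := if (2 : ℤ) ∣ a + b then 2 else 1

/-- the product `∏_{p > 2, p ∣ gcd(a, b)} p / (p - 1)` -/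
noncomputable def gcdProd (a b : ℤ) : ℝ :=
  ∏ p ∈ (Int.gcd a b).primeFactors.filter (fun p => 2 < p), (p : ℝ) / (p - 1)

/-- the product `∏_{2 < p ≤ z, p ∤ a} (1 - (D / p) / (p - 1))`, where `D = b² - 4 a c` -/
noncomputable def partialC (a b c : ℤ) (z : ℕ) : ℝ :=
  ∏ p ∈ (Icc 3 z).filter (fun p : ℕ => p.Prime ∧ ¬ (p : ℤ) ∣ a),
    (1 - (jacobiSym (b ^ 2 - 4 * a * c) p : ℝ) / (p - 1))

/-- **The Hardy-Littlewood formula for almost all `c ≤ C`, `x^(5/6+ε) ≤ C ≤ x`.** Let `a > 0`, `b`,
`ε > 0` and `η > 0` be fixed. For `x ≥ x0` and every `C` with `x^(5/6 + ε) ≤ C ≤ x`, all but at most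
`η C` of the `1 ≤ c ≤ C` have the following property: if `(a, b, c)` is admissible, the product
`C(a, b, c)` converges to a number `S > 0` and, with `M = ε S ∏_{p > 2, p ∣ gcd(a, b)} p / (p - 1)`
(here `ε` is `eps a b`), for all `u ≤ v ≤ x` the number of `u < m ≤ v` with `a m² + b m + c` prime
differs from `M ∑_{u < m ≤ v} 1 / log (a m² + b m + c)` by at most `η M x / log x`. -/
theorem result (a : ℤ) (ha : 0 < a) (b : ℤ) (ε η : ℝ) (hε : 0 < ε) (hη : 0 < η) :
    ∃ x0 : ℕ, ∀ x : ℕ, x0 ≤ x → ∀ C : ℕ, (x : ℝ) ^ (5 / 6 + ε) ≤ C → C ≤ x →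
    ∃ Ex ⊆ Icc 1 C, (#Ex : ℝ) ≤ η * C ∧ ∀ c ∈ Icc 1 C, c ∉ Ex → Admissible a b c →
      ∃ S : ℝ, 0 < S ∧ Tendsto (fun z => partialC a b c z) atTop (𝓝 S) ∧
        ∀ u v : ℕ, u ≤ v → v ≤ x →
          |(primeCount a b c u v : ℝ) -
            eps a b * S * gcdProd a b * ∑ m ∈ Ioc u v, 1 / Real.log ((a : ℝ) * m ^ 2 + b * m + c)| ≤
          η * (eps a b * S * gcdProd a b * x / Real.log x) :=
  Pool.Agent.N792.t7s a ha b ε hε η hη

end Pool.Agent.Results.MP_a1177c_nt.ThinConstantTerms
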